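import Mathlib
import Pool.Agent.H.MP_514792_al.Num

set_option autoImplicit false

namespace Pool.Agent.H.MP_f3c5e4_al

open Pool.Agent.H.MP_514792_al

def d2 (i : ℕ) : ℕ := 512 ^ i
def s2 (i : ℕ) : ℕ := 110 * d2 i

lemma d2_succ (i : ℕ) : d2 (i + 1) = 512 * d2 i := by simp [d2, pow_succ']
lemma d2_gt (i : ℕ) : i < d2 i := Nat.lt_pow_self (by norm_num)
lemma x_ge (i : ℕ) : 2 ≤ 2 ^ d2 i := Nat.le_self_pow (by have := d2_gt i; omega) 2
lemma x_gt (i : ℕ) : d2 i < 2 ^ d2 i := Nat.lt_two_pow_self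
lemma x_succ (i : ℕ) : 2 ^ d2 (i + 1) = (2 ^ d2 i) ^ 512 := by rw [d2_succ, pow_mul']

lemma pw {x : ℕ} (hx : 2 ≤ x) {k : ℕ} (hk : 11 ≤ k) : 1024 * x ≤ x ^ k :=
  calc 1024 * x = 2 ^ 10 * x := rfl
    _ ≤ x ^ 10 * x := by gcongr
    _ = x ^ 11 := rfl
    _ ≤ _ := Nat.pow_le_pow_right (by omega) hk

lemma hyp2 (i : ℕ) : P d2 i + s2 i < P d2 (i + 1) := by
  have a := x_ge i
  have b := x_gt i
  have c := pw a (k := 512) (by norm_num)
  rw [P, P, x_succ, s2]
  omega

lemma up2 {n j : ℕ} (h : n ≤ (2 ^ d2 j) ^ 256) : Up (gens d2 s2) n (((2 ^ d2 j) ^ 256) ^ 8) := by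
  have a := x_ge j
  have b := x_gt j
  have c := pw a (k := 256) (by norm_num)
  have := upper' (fun i => by have := d2_gt i; omega) (fun i => by rw [d2_succ]; simp) hyp2
    (m := 1) (j := j) (c := d2 j * 220) h (by rw [P, s2]; omega) ?_ ?_
  · rwa [d2_succ, show 4 * 1 * (512 * d2 j) = d2 j * 256 * 8 by ring, pow_mul, pow_mul] at this
  · clear a b c h
    induction j with
    | zero => simp [s2]; omega
    | succ j ih => rw [Finset.sum_range_succ, s2, d2_succ]; omega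
  · rw [x_succ, pow_mul, pow_one, pow_one]
    generalize 2 ^ d2 j = x at *
    have e : x ^ 512 = x ^ 220 * x ^ 256 * x ^ 36 := by ring
    have f := pw a (k := 36) (by norm_num)
    have g : 0 < x ^ 220 * x ^ 256 := by positivity
    have : x ^ 220 * x ^ 256 * 4 ≤ x ^ 220 * x ^ 256 * x ^ 36 := Nat.mul_le_mul_left _ (by omega)
    rw [mul_left_comm]
    omega

lemma big (i k : ℕ) (hk : k ≠ 0) : i < (2 ^ d2 i) ^ k :=
  ((d2_gt i).trans (x_gt i)).trans_le (Nat.le_self_pow hk _)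

lemma ups2 (n : ℕ) : ∃ M, Up (gens d2 s2) n M := ⟨_, up2 (j := n) (big n _ (by norm_num)).le⟩

lemma low2 (i : ℕ) : ((2 ^ d2 i) ^ 11) ^ 10 ≤ rfGrowth (gens d2 s2) ((2 ^ d2 i) ^ 11) := by
  have a := x_ge i
  have b := x_gt i
  have c := pw a (k := 11) le_rfl
  have := (lower' (fun i => by have := d2_gt i; omega) (fun i => by rw [d2_succ]; simp) hyp2 i).le
    (gens_top _ _) ups2 (n := (2 ^ d2 i) ^ 11) (by rw [P, s2]; omega)
  rwa [s2, show 110 * d2 i = d2 i * 11 * 10 by ring, pow_mul, pow_mul] at this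

theorem poly : ∃ C : ℕ, 0 < C ∧ ∀ n, rfGrowth (gens d2 s2) n ≤ C * n ^ C := by
  obtain ⟨M, hM⟩ := ups2 ((2 ^ d2 0) ^ 256)
  refine ⟨M + 4096, by omega, fun n => ?_⟩
  rcases n.eq_zero_or_pos with rfl | hn
  · refine (Up.le (M := 0) (gens_top _ _) ?_).trans (Nat.zero_le _)
    rintro _ ⟨l, a, -, rfl⟩ h
    rw [List.length_eq_zero_iff.1 (Nat.le_zero.1 a)] at h
    exact absurd rfl h
  rcases le_total n ((2 ^ d2 0) ^ 256) with h | h
  · refine ((rf_mono (gens_top _ _) ups2 h).trans (hM.le (gens_top _ _))).trans ?_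
    exact (Nat.le_add_right _ _).trans (Nat.le_mul_of_pos_right _ (by positivity))
  · obtain ⟨i, -, a, b⟩ := between (fun i => (2 ^ d2 i) ^ 256) (fun i => big i _ (by norm_num)) h
    refine ((up2 b.le).le (gens_top _ _)).trans ?_
    rw [x_succ]
    generalize 2 ^ d2 i = x at *
    calc _ = (x ^ 256) ^ 4096 := by simp only [← pow_mul]
      _ ≤ n ^ 4096 := by gcongr
      _ ≤ n ^ (M + 4096) := Nat.pow_le_pow_right hn (by omega)
      _ ≤ _ := Nat.le_mul_of_pos_left _ (by omega)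

theorem osc (α : ℝ) : ¬ (Prec (fun n => rfGrowth (gens d2 s2) n) (fun n => (n : ℝ) ^ α) ∧
    Prec (fun n => (n : ℝ) ^ α) fun n => rfGrowth (gens d2 s2) n) := by
  rintro ⟨⟨C, hC, h⟩, C', hC', h'⟩
  rcases le_total α 9 with hα | hα
  · have a := low2 (C ^ 10)
    have b := big (C ^ 10) 11 (by norm_num)
    generalize (2 ^ d2 (C ^ 10)) ^ 11 = n at a b
    have hn : 1 ≤ n := by omega
    have c := h n hn
    beta_reduce at c
    have e : (((C * n : ℕ) : ℝ)) ^ α ≤ ((C * n : ℕ) : ℝ) ^ (9 : ℕ) := by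
      rw [← Real.rpow_natCast]
      exact Real.rpow_le_rpow_of_exponent_le (by exact_mod_cast Nat.mul_pos hC hn) (by simpa using hα)
    have f : rfGrowth (gens d2 s2) n ≤ C * (C * n) ^ 9 := by
      exact_mod_cast c.trans (mul_le_mul_of_nonneg_left e (by positivity))
    have : n * n ^ 9 ≤ C ^ 10 * n ^ 9 := by
      calc _ = n ^ 10 := by ring
        _ ≤ _ := a.trans f
        _ = _ := by ring
    have := Nat.le_of_mul_le_mul_right this (by positivity)
    omega
  · have a : rfGrowth (gens d2 s2) _ ≤ _ := (up2 (j := C' * (2 * C') ^ 9 + C') le_rfl).le (gens_top _ _)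
    have b := big (C' * (2 * C') ^ 9 + C') 256 (by norm_num)
    generalize (2 ^ d2 (C' * (2 * C') ^ 9 + C')) ^ 256 = m at a b
    have hn : 1 ≤ m / C' := Nat.div_pos (by omega) hC'
    have h1 : C' * (m / C') ≤ m := Nat.mul_div_le _ _
    have h2 : m ≤ 2 * C' * (m / C') := by
      have := Nat.lt_mul_div_succ m hC'
      nlinarith
    generalize m / C' = n at *
    have c := h' n hn
    beta_reduce at c
    have e : (n : ℝ) ^ (9 : ℕ) ≤ (n : ℝ) ^ α := by
      rw [← Real.rpow_natCast]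
      exact Real.rpow_le_rpow_of_exponent_le (by exact_mod_cast hn) (by simpa using hα)
    have f : n ^ 9 ≤ C' * rfGrowth (gens d2 s2) (C' * n) := by exact_mod_cast e.trans c
    have g := (rf_mono (gens_top _ _) ups2 h1).trans a
    have : m * m ^ 8 ≤ C' * (2 * C') ^ 9 * m ^ 8 := by
      calc _ = m ^ 9 := by ring
        _ ≤ (2 * C' * n) ^ 9 := by gcongr
        _ = (2 * C') ^ 9 * n ^ 9 := by ring
        _ ≤ (2 * C') ^ 9 * (C' * m ^ 8) := by gcongr; exact f.trans (by gcongr)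
        _ = _ := by ring
    have := Nat.le_of_mul_le_mul_right this (Nat.pow_pos (by omega))
    omega

end Pool.Agent.H.MP_f3c5e4_al
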